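import Pool.Agent.helper15.XE.SpecS
import Pool.Agent.helper92.GD.BV4

/-!
# Project XE (MP_5628fe_nt), row SCK: characters of small conductor modulo M
(port of Pool/Agent/helper31/SK/SCK.lean)
-/

set_option autoImplicit false

namespace Pool.Agent.XE

open Finset ArithmeticFunction MeasureTheory
open Pool.Agent.EC (tri TL)
open Pool.Agent.SK (tr0)
open GD (ks)

open Classical in
/-- reduction to the single characters -/
private theorem SCK_red (J : Finset ℕ) (f : ℕ → ℝ) (S : ℝ) (m c R : ℕ) (hm : 0 < m)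
    (hc : Nat.Coprime c m) (hR : 1 ≤ R) (ε : ℝ)
    (hε : ∀ χ : DirichletCharacter ℂ m, χ.conductor ≤ R →
      (χ = 1 → ‖∑ n ∈ J, (f n : ℂ) * χ n - (S : ℂ)‖ ≤ ε) ∧
      (χ ≠ 1 → ‖∑ n ∈ J, (f n : ℂ) * χ n - 0‖ ≤ ε)) :
    |∑ n ∈ J, f n * ks R m c n - (1 / (Nat.totient m : ℝ)) * S| ≤
      (1 / (Nat.totient m : ℝ)) * ((R * R : ℕ) * ε) := by
  have : NeZero m := ⟨hm.ne'⟩
  have hφ : 0 < Nat.totient m := Nat.totient_pos.2 hm
  have hφ0 : (0 : ℝ) < Nat.totient m := by exact_mod_cast hφ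
  set F := (univ : Finset (DirichletCharacter ℂ m)).filter fun χ => χ.conductor ≤ R with hF
  have hε0 : 0 ≤ ε := by
    refine (norm_nonneg _).trans ((hε 1 ?_).1 rfl)
    rw [DirichletCharacter.eq_one_iff_conductor_eq_one.1 rfl]
    exact hR
  have h1F : (1 : DirichletCharacter ℂ m) ∈ F := by
    rw [hF, mem_filter]
    refine ⟨mem_univ _, ?_⟩
    rw [DirichletCharacter.eq_one_iff_conductor_eq_one.1 rfl]
    exact hR
  have key : ∑ n ∈ J, f n * ks R m c n - (1 / (Nat.totient m : ℝ)) * S =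
      (1 / (Nat.totient m : ℝ)) * (∑ χ ∈ F, (starRingEnd ℂ) (χ c) *
        (∑ n ∈ J, (f n : ℂ) * χ n - (if χ = 1 then (S : ℂ) else 0))).re := by
    have e1 : ∑ χ ∈ F, (starRingEnd ℂ) (χ c) * (if χ = 1 then (S : ℂ) else 0) = S := by
      rw [sum_eq_single_of_mem 1 h1F (fun χ _ hχ => by rw [if_neg hχ, mul_zero]), if_pos rfl,
        MulChar.one_apply ((ZMod.isUnit_iff_coprime c m).2 hc), map_one, one_mul]
    have e2 : ∑ n ∈ J, f n * ks R m c n =
        (1 / (Nat.totient m : ℝ)) * (∑ χ ∈ F, (starRingEnd ℂ) (χ c) *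
          ∑ n ∈ J, (f n : ℂ) * χ n).re := by
      have e3 : ∑ χ ∈ F, (starRingEnd ℂ) (χ c) * ∑ n ∈ J, (f n : ℂ) * χ n =
          ∑ n ∈ J, (f n : ℂ) * ∑ χ ∈ F, (starRingEnd ℂ) (χ c) * χ n := by
        simp_rw [mul_sum]
        rw [sum_comm]
        refine sum_congr rfl fun n _ => sum_congr rfl fun χ _ => ?_
        ring
      rw [e3, Complex.re_sum, mul_sum]
      refine sum_congr rfl fun n _ => ?_
      rw [Complex.re_ofReal_mul]
      unfold ks
      ring
    simp_rw [mul_sub]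
    rw [sum_sub_distrib, e1, Complex.sub_re, mul_sub, e2, Complex.ofReal_re]
  rw [key, abs_mul, abs_of_nonneg (by positivity : 0 ≤ 1 / (Nat.totient m : ℝ))]
  refine mul_le_mul_of_nonneg_left ?_ (by positivity)
  refine (Complex.abs_re_le_norm _).trans ((norm_sum_le _ _).trans ?_)
  calc ∑ χ ∈ F, ‖(starRingEnd ℂ) (χ c) *
        (∑ n ∈ J, (f n : ℂ) * χ n - (if χ = 1 then (S : ℂ) else 0))‖
      ≤ ∑ χ ∈ F, ε := by
        apply sum_le_sum
        intro χ hχ
        rw [norm_mul, RCLike.norm_conj]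
        have h1 := DirichletCharacter.norm_le_one χ (c : ZMod m)
        have h2 := hε χ (mem_filter.1 hχ).2
        by_cases hχ1 : χ = 1
        · rw [if_pos hχ1]
          exact (mul_le_mul h1 (h2.1 hχ1) (norm_nonneg _) zero_le_one).trans (le_of_eq (one_mul ε))
        · rw [if_neg hχ1]
          exact (mul_le_mul h1 (h2.2 hχ1) (norm_nonneg _) zero_le_one).trans (le_of_eq (one_mul ε))
    _ = (#F : ℝ) * ε := by rw [sum_const, nsmul_eq_mul]
    _ ≤ ((R * R : ℕ) : ℝ) * ε := by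
        apply mul_le_mul_of_nonneg_right _ hε0
        exact_mod_cast GD.BV4_card m R hm

/-- passing to the primitive character -/
private theorem SCK_prim (J : Finset ℕ) (m : ℕ) (f : ℕ → ℝ) (hf : ∀ n, 0 ≤ f n)
    (χ : DirichletCharacter ℂ m) (S : ℂ) :
    ‖∑ n ∈ J, (f n : ℂ) * χ n - S‖ ≤
      ‖∑ n ∈ J, (f n : ℂ) * χ.primitiveCharacter n - S‖ +
        ∑ n ∈ J with ¬ Nat.Coprime n m, f n := by
  have h1 : ∑ n ∈ J, (f n : ℂ) * χ n =
      ∑ n ∈ J, (f n : ℂ) * χ.primitiveCharacter n -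
        ∑ n ∈ J with ¬ Nat.Coprime n m, (f n : ℂ) * χ.primitiveCharacter n := by
    rw [sum_filter, ← sum_sub_distrib]
    refine sum_congr rfl fun n _ => ?_
    by_cases hn : Nat.Coprime n m
    · have h2 := χ.primitiveCharacter_apply_of_isCoprime (a := (n : ℤ))
        (Nat.isCoprime_iff_coprime.mpr hn)
      push_cast at h2
      rw [if_neg (by simpa using hn), sub_zero, h2]
    · rw [if_pos hn, sub_self, MulChar.map_nonunit _ (fun h => hn
        ((ZMod.isUnit_iff_coprime n m).1 h)), mul_zero]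
  rw [h1, sub_right_comm]
  refine (norm_sub_le _ _).trans (add_le_add le_rfl ?_)
  refine (norm_sum_le _ _).trans (sum_le_sum fun n _ => ?_)
  rw [norm_mul, Complex.norm_real, Real.norm_of_nonneg (hf n)]
  have h2 := DirichletCharacter.norm_le_one χ.primitiveCharacter (n : ZMod χ.conductor)
  exact (mul_le_mul_of_nonneg_left h2 (hf n)).trans (le_of_eq (mul_one _))

private theorem SCK_TL {r : ℕ} (N : ℕ) (a b : Fin r → ℝ) (m : ℕ) : 0 ≤ TL N a b m := by
  unfold TL
  exact sum_nonneg fun _ _ => vonMangoldt_nonneg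

private theorem SCK_wk {r : ℕ} (a b : Fin r → ℝ) (h : r = 0 ∨ AdX a b) : Wk a b := by
  rcases h with h | h
  · subst h
    refine ⟨fun i => i.elim0, ?_⟩
    rw [Finset.univ_eq_empty, Finset.sum_empty]
    norm_num
  · exact ⟨fun i => (h.1 i).1, h.2.2.1⟩

theorem SCK (h1 : SCN_stmt) (h2 : GCD_stmt) (h3 : WVB_stmt) : SCK_stmt := by
  intro r a b hab A Bq
  obtain ⟨N₁, hN₁⟩ := h1 r a b hab (A + 2 * Bq + 1) Bq
  obtain ⟨N₂, hN₂⟩ := h2 r a b (SCK_wk a b hab) (A + 2 * Bq + 1)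
  obtain ⟨N₃, _, hN₃⟩ := h3
  refine ⟨max N₁ (max N₂ (max N₃ 64)), ?_⟩
  intro N hN v hInB M c R hM hMN hcM hR hRB
  have h1N : N₁ ≤ N := (le_max_left _ _).trans hN
  have h2N : N₂ ≤ N := (le_max_left _ _).trans ((le_max_right _ _).trans hN)
  have h3N : N₃ ≤ N := (le_max_left _ _).trans ((le_max_right _ _).trans ((le_max_right _ _).trans hN))
  have h64 : 64 ≤ N := (le_max_right _ _).trans ((le_max_right _ _).trans ((le_max_right _ _).trans hN))
  obtain ⟨hv, -, -, hW⟩ := (hN₃ N h3N).1 v hInB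
  have hgcd := hN₂ N h2N v hInB M hM hMN
  set L := Real.log N with hL
  have hN0 : (0 : ℝ) < N := by exact_mod_cast (by omega : 0 < N)
  have hNR : (64 : ℝ) ≤ N := by exact_mod_cast h64
  have hL2 : 2 ≤ L := by
    rw [hL, Real.le_log_iff_exp_le hN0]
    have h3 : Real.exp 2 < 9 := by
      have := Real.exp_one_lt_d9
      have h4 : Real.exp 2 = Real.exp 1 ^ 2 := by rw [← Real.exp_nat_mul]; norm_num
      rw [h4]
      have h5 : 0 < Real.exp 1 := Real.exp_pos 1
      nlinarith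
    linarith
  have hL0 : 0 < L := by linarith
  set f : ℕ → ℝ := fun m => TL N a b m * wv N v m with hf
  have hf0 : ∀ n, 0 ≤ f n := fun n => mul_nonneg (SCK_TL N a b n) (hW n).1
  set S : ℝ := ∑ m ∈ Z3 N, f m with hS
  set E : ℝ := (N : ℝ) ^ 2 / L ^ (A + 2 * Bq) with hE
  have hhalf : (N : ℝ) ^ 2 / L ^ (A + 2 * Bq + 1) ≤ 1 / 2 * E := by
    rw [hE, pow_succ L (A + 2 * Bq), ← div_div]
    rw [div_le_iff₀ hL0]
    have h5 : 0 ≤ (N : ℝ) ^ 2 / L ^ (A + 2 * Bq) := by positivity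
    nlinarith
  have hE0 : 0 ≤ E := by positivity
  have hnon : ∑ n ∈ Z3 N with ¬ Nat.Coprime n M, f n ≤ 1 / 2 * E := hgcd.trans hhalf
  have hone : ∀ χ : DirichletCharacter ℂ M, χ.conductor ≤ R →
      (χ = 1 → ‖∑ n ∈ Z3 N, (f n : ℂ) * χ n - (S : ℂ)‖ ≤ E) ∧
      (χ ≠ 1 → ‖∑ n ∈ Z3 N, (f n : ℂ) * χ n - 0‖ ≤ E) := by
    intro χ hχ
    have : NeZero M := ⟨hM.ne'⟩
    have hcond0 : χ.conductor ≠ 0 := DirichletCharacter.conductor_ne_zero χ
    have hcB : (χ.conductor : ℝ) ≤ L ^ Bq := by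
      refine le_trans ?_ hRB
      exact_mod_cast hχ
    constructor
    · intro hχ1
      refine (SCK_prim (Z3 N) M f hf0 χ _).trans ?_
      have hlev : χ.conductor = 1 := DirichletCharacter.eq_one_iff_conductor_eq_one.1 hχ1
      have hsub : ∀ k : ℕ, k = 1 → ∀ ψ : DirichletCharacter ℂ k, ∀ n : ℕ, ψ n = 1 := by
        intro k hk ψ n
        subst hk
        rw [DirichletCharacter.level_one ψ, MulChar.one_apply]
        exact isUnit_of_subsingleton _
      have e : ∑ n ∈ Z3 N, (f n : ℂ) * χ.primitiveCharacter n - (S : ℂ) = 0 := by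
        rw [hS, Complex.ofReal_sum, sub_eq_zero]
        refine sum_congr rfl fun n _ => ?_
        rw [hsub _ hlev, mul_one]
      rw [e, norm_zero]
      linarith
    · intro hχ1
      refine (SCK_prim (Z3 N) M f hf0 χ _).trans ?_
      have hp : χ.primitiveCharacter ≠ 1 := by
        intro h
        apply hχ1
        have h5 := χ.changeLevel_primitiveCharacter
        rw [h, map_one] at h5
        exact h5.symm
      have g1 := hN₁ N h1N v hv χ.conductor (Nat.one_le_iff_ne_zero.2 hcond0) hcB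
        χ.primitiveCharacter hp
      have e : ∑ n ∈ Z3 N, (f n : ℂ) * χ.primitiveCharacter n =
          ∑ m ∈ Ioc 0 (64 * N ^ 3), ((TL N a b m : ℝ) : ℂ) * χ.primitiveCharacter m *
            ((tr0 v (1 / (N : ℝ)) (Real.log m) : ℝ) : ℂ) := by
        refine sum_congr rfl fun n _ => ?_
        have e5 : tr0 v (1 / (N : ℝ)) (Real.log n) = wv N v n := rfl
        rw [hf, e5]
        push_cast
        ring
      rw [sub_zero, e]
      linarith
  have hfin := SCK_red (Z3 N) f S M c R hM hcM hR E hone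
  refine hfin.trans ?_
  refine mul_le_mul_of_nonneg_left ?_ (by positivity)
  have h3 : ((R * R : ℕ) : ℝ) ≤ L ^ (2 * Bq) := by
    push_cast
    calc (R : ℝ) * R ≤ L ^ Bq * L ^ Bq := by gcongr
      _ = L ^ (2 * Bq) := by rw [← pow_add]; congr 1; ring
  calc ((R * R : ℕ) : ℝ) * E ≤ L ^ (2 * Bq) * ((N : ℝ) ^ 2 / L ^ (A + 2 * Bq)) := by
        rw [hE]
        gcongr
    _ = (N : ℝ) ^ 2 / L ^ A := by rw [pow_add]; field_simp

end Pool.Agent.XE
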